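import Pool.Agent.Helper5.KPA.StD

set_option autoImplicit false

namespace Pool.Agent.Helper81.KPA

open Pool.Agent.Helper5.KPA Pool.Agent.Helper52.KP MvPolynomial

private theorem hp_nonneg {s : ℕ} {i : ℤ} (h : 0 ≤ i) :
    hp s i = homogeneousSubmodule (Fin s) ℂ i.toNat := by simp [hp, h]

private theorem hp_neg {s : ℕ} {i : ℤ} (h : ¬ 0 ≤ i) : hp s i = ⊥ := by simp [hp, h]

private theorem hp_nat (s n : ℕ) : hp s (n : ℤ) = homogeneousSubmodule (Fin s) ℂ n := by
  rw [hp_nonneg (Int.natCast_nonneg n)]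
  simp

private instance hp_fd (s : ℕ) (i : ℤ) : FiniteDimensional ℂ (hp s i) := by
  by_cases h : 0 ≤ i
  · rw [hp_nonneg h]
    exact Module.Finite.iff_fg.2 (homogeneousSubmodule_fg _ _ _)
  · rw [hp_neg h]
    infer_instance

private theorem hp_mul {s : ℕ} {i j : ℤ} {a b : MvPolynomial (Fin s) ℂ} (ha : a ∈ hp s i)
    (hb : b ∈ hp s j) : a * b ∈ hp s (i + j) := by
  by_cases h : 0 ≤ i
  · by_cases h' : 0 ≤ j
    · rw [hp_nonneg h] at ha
      rw [hp_nonneg h'] at hb
      rw [hp_nonneg (add_nonneg h h'), Int.toNat_add h h']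
      exact IsHomogeneous.mul ha hb
    · rw [hp_neg h', Submodule.mem_bot] at hb
      rw [hb, mul_zero]
      exact Submodule.zero_mem _
  · rw [hp_neg h, Submodule.mem_bot] at ha
    rw [ha, zero_mul]
    exact Submodule.zero_mem _

private theorem hp_X {s : ℕ} (l : Fin s) : (X l : MvPolynomial (Fin s) ℂ) ∈ hp s 1 := by
  have := hp_nat s 1
  rw [Nat.cast_one] at this
  rw [this]
  exact isHomogeneous_X ℂ l

private theorem comp_mul {s δ : ℕ} {f : MvPolynomial (Fin s) ℂ} (hf : f.IsHomogeneous δ)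
    (q : MvPolynomial (Fin s) ℂ) (m : ℕ) :
    homogeneousComponent (m + δ) (f * q) = f * homogeneousComponent m q := by
  have h1 : ∀ i, homogeneousComponent (m + δ) (f * homogeneousComponent i q) =
      if m = i then f * homogeneousComponent i q else 0 := by
    intro i
    have h2 : f * homogeneousComponent i q ∈ homogeneousSubmodule (Fin s) ℂ (δ + i) :=
      hf.mul (homogeneousComponent_isHomogeneous i q)
    rw [homogeneousComponent_of_mem h2]
    by_cases h : m = i
    · rw [if_pos h, if_pos (by omega)]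
    · rw [if_neg h, if_neg (by omega)]
  conv_lhs => rw [← sum_homogeneousComponent q]
  rw [Finset.mul_sum, map_sum]
  simp only [h1, Finset.sum_ite_eq]
  by_cases h : m ∈ Finset.range (q.totalDegree + 1)
  · rw [if_pos h]
  · rw [if_neg h, homogeneousComponent_eq_zero m q (by
      simp only [Finset.mem_range, not_lt] at h
      omega), mul_zero]

private theorem comp_low {s d n : ℕ} {b : MvPolynomial (Fin s) ℂ} (hb : b.IsHomogeneous d)
    (a : MvPolynomial (Fin s) ℂ) (hn : n < d) : homogeneousComponent n (a * b) = 0 := by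
  conv_lhs => rw [← sum_homogeneousComponent a]
  rw [Finset.sum_mul, map_sum]
  refine Finset.sum_eq_zero fun i _ => ?_
  have h2 : homogeneousComponent i a * b ∈ homogeneousSubmodule (Fin s) ℂ (i + d) :=
    (homogeneousComponent_isHomogeneous i a).mul hb
  rw [homogeneousComponent_of_mem h2, if_neg (by omega)]

/-- vectors with `p_i ∈ hp (k + c_i)` -/
private def YY {s ρ : ℕ} (c : Fin ρ → ℤ) : Submodule ℂ (Fin ρ → MvPolynomial (Fin s) ℂ) where
  carrier := {p | ∀ i, p i ∈ hp s (c i)}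
  add_mem' := fun h h' _ => (hp s _).add_mem (h _) (h' _)
  zero_mem' := fun _ => (hp s _).zero_mem
  smul_mem' := fun a _ h _ => (hp s _).smul_mem a (h _)

private def YYe {s ρ : ℕ} (c : Fin ρ → ℤ) :
    (YY c : Submodule ℂ (Fin ρ → MvPolynomial (Fin s) ℂ)) ≃ₗ[ℂ] (∀ i, hp s (c i)) where
  toFun p i := ⟨p.1 i, p.2 i⟩
  invFun q := ⟨fun i => (q i : MvPolynomial (Fin s) ℂ), fun i => (q i).2⟩
  left_inv _ := rfl
  right_inv _ := rfl
  map_add' _ _ := rfl
  map_smul' _ _ := rfl

private theorem YY_rank {s ρ : ℕ} (c : Fin ρ → ℤ) :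
    (Module.finrank ℂ (YY c : Submodule ℂ (Fin ρ → MvPolynomial (Fin s) ℂ)) : ℝ) =
      ∑ i, hn s (c i) := by
  rw [LinearEquiv.finrank_eq (YYe c), Module.finrank_pi_fintype]
  simp [hn]

private theorem dg_app {s ρ : ℕ} (a : MvPolynomial (Fin s) ℂ)
    (x : Fin ρ → MvPolynomial (Fin s) ℂ) : dg s ρ a x = a • x := rfl

private theorem low_app {e ρ : ℕ} (a : MvPolynomial (Fin e) ℂ)
    (x : Fin ρ → MvPolynomial (Fin (e + 1)) ℂ) : low (dg (e + 1) ρ) a x = up a • x := rfl

private theorem mem_F {s ρ : ℕ} (f : MvPolynomial (Fin s) ℂ) (δ : ℕ) (c : Fin ρ → ℤ)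
    (y v : Fin ρ → MvPolynomial (Fin s) ℂ) (hf : f.IsHomogeneous δ) (hf0 : f ≠ 0)
    (hv : v = f • y)
    (hl : ∀ i (n : ℕ), (n : ℤ) < c i → homogeneousComponent n (v i) = 0) :
    v ∈ ⨆ k : ℕ, (YY fun i => (k : ℤ) + c i - δ).map (dg s ρ f) := by
  rw [← Submodule.map_iSup]
  refine ⟨y, ?_, hv.symm⟩
  have e1 : y = ∑ i, ∑ m ∈ Finset.range ((y i).totalDegree + 1),
      Pi.single i (homogeneousComponent m (y i)) := by
    funext i
    rw [Finset.sum_apply, Finset.sum_eq_single i]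
    · rw [Finset.sum_apply]
      simp only [Pi.single_eq_same]
      exact (sum_homogeneousComponent (y i)).symm
    · intro j _ hj
      rw [Finset.sum_apply]
      refine Finset.sum_eq_zero fun m _ => ?_
      rw [Pi.single_eq_of_ne (Ne.symm hj)]
    · intro h
      exact absurd (Finset.mem_univ i) h
  rw [e1]
  refine Submodule.sum_mem _ fun i _ => Submodule.sum_mem _ fun m _ => ?_
  by_cases h0 : homogeneousComponent m (y i) = 0
  · rw [h0, Pi.single_zero]
    exact Submodule.zero_mem _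
  · have h1 : 0 ≤ (m : ℤ) + δ - c i := by
      by_contra hneg
      have h2 := hl i (m + δ) (by push_cast; linarith)
      rw [hv, Pi.smul_apply, smul_eq_mul, comp_mul hf] at h2
      rcases mul_eq_zero.1 h2 with h3 | h3
      · exact hf0 h3
      · exact h0 h3
    refine Submodule.mem_iSup_of_mem ((m : ℤ) + δ - c i).toNat ?_
    intro j
    by_cases hj : j = i
    · subst hj
      rw [Pi.single_eq_same, Int.toNat_of_nonneg h1]
      have e2 : (m : ℤ) + δ - c j + c j - δ = m := by ring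
      simp only
      rw [e2, hp_nat]
      exact homogeneousComponent_isHomogeneous m (y j)
    · rw [Pi.single_eq_of_ne hj]
      exact Submodule.zero_mem _

private theorem asy_add {e : ℕ} {h h' : ℕ → ℝ} {a a' b b' : ℝ} (H : Asy e h a b)
    (H' : Asy e h' a' b') : Asy e (fun k => h k + h' k) (a + a') (b + b') := by
  obtain ⟨K, hK⟩ := H
  obtain ⟨K', hK'⟩ := H'
  refine ⟨K + K', fun k hk => ?_⟩
  have h1 := hK k hk
  have h2 := hK' k hk
  have e1 : h k + h' k - ((a + a') * (k : ℝ) ^ e + (b + b') * (k : ℝ) ^ (e - 1)) =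
      (h k - (a * (k : ℝ) ^ e + b * (k : ℝ) ^ (e - 1))) +
        (h' k - (a' * (k : ℝ) ^ e + b' * (k : ℝ) ^ (e - 1))) := by ring
  rw [e1, add_mul]
  have h3 := abs_add_le (h k - (a * (k : ℝ) ^ e + b * (k : ℝ) ^ (e - 1)))
    (h' k - (a' * (k : ℝ) ^ e + b' * (k : ℝ) ^ (e - 1)))
  have h4 := mul_le_mul_of_nonneg_right h3 (sq_nonneg (k : ℝ))
  rw [add_mul] at h4
  linarith

private theorem asy_zero (e : ℕ) : Asy e (fun _ => 0) 0 0 :=
  ⟨0, fun k _ => by simp⟩

private theorem asy_sum {e n : ℕ} {h : Fin n → ℕ → ℝ} {a b : Fin n → ℝ}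
    (H : ∀ i, Asy e (h i) (a i) (b i)) :
    Asy e (fun k => ∑ i, h i k) (∑ i, a i) (∑ i, b i) := by
  have : ∀ S : Finset (Fin n), Asy e (fun k => ∑ i ∈ S, h i k) (∑ i ∈ S, a i) (∑ i ∈ S, b i) := by
    intro S
    induction S using Finset.induction_on with
    | empty => simpa using asy_zero e
    | insert i S hi ih =>
      simp only [Finset.sum_insert hi]
      exact asy_add (H i) ih
  exact this Finset.univ

private theorem asy_asz {s : ℕ} {h : ℕ → ℝ} {a : ℝ} (H : Asz s h a) : Asy (s + 1) h 0 a := by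
  obtain ⟨K, hK⟩ := H
  refine ⟨K, fun k hk => ?_⟩
  have h1 := hK k hk
  have h2 := mul_le_mul_of_nonneg_right h1 (Nat.cast_nonneg (α := ℝ) k)
  have e1 : h k - (0 * (k : ℝ) ^ (s + 1) + a * (k : ℝ) ^ (s + 1 - 1)) = h k - a * (k : ℝ) ^ s := by
    simp
  rw [e1]
  calc _ = |h k - a * (k : ℝ) ^ s| * k * k := by ring
    _ ≤ _ := h2
    _ = _ := by ring

theorem hALP (hABA : StABA) (hAFG : StAFG) (hANO : StANO) (hAHN : StAHN) (hACN : StACN) :
    StALP := by
  intro e δ ρ he hδ hρ c f hf L hL hst hfp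
  obtain ⟨s, rfl⟩ : ∃ s, e = s + 1 := ⟨e - 1, by omega⟩
  have fhom : f.IsHomogeneous δ := by
    have := hf.1
    rwa [hp_nat] at this
  have f0 : f ≠ 0 := by
    rintro rfl
    have := hf.2
    simp at this
  set F : ℕ → Submodule ℂ (Fin ρ → MvPolynomial (Fin (s + 1 + 1)) ℂ) := fun k =>
    (YY fun i => (k : ℤ) + c i - δ).map (dg (s + 1 + 1) ρ f) with hF
  obtain ⟨hGr, hFg⟩ := hANO (s + 1 + 1) ρ c L hρ hL hst
  have FL : ∀ k, F k ≤ L k := by
    rintro k v ⟨p, hp, rfl⟩
    exact hfp k p hp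
  have Fst : ∀ k i, ∀ x ∈ F k, dg (s + 1 + 1) ρ (X i) x ∈ F (k + 1) := by
    rintro k l x ⟨p, hp, rfl⟩
    refine ⟨(X l : MvPolynomial (Fin (s + 1 + 1)) ℂ) • p, fun i => ?_, ?_⟩
    · have := hp_mul (hp_X l) (hp i)
      have e1 : (1 : ℤ) + ((k : ℤ) + c i - δ) = ((k + 1 : ℕ) : ℤ) + c i - δ := by
        push_cast
        ring
      rw [e1] at this
      exact this
    · rw [dg_app, dg_app, dg_app, smul_smul, smul_smul, mul_comm]
  have fL : ∀ k, ∀ x ∈ L k, dg (s + 1 + 1) ρ f x ∈ F (k + δ) := by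
    intro k x hx
    refine ⟨x, fun i => ?_, rfl⟩
    have := hL k x hx i
    have e1 : ((k + δ : ℕ) : ℤ) + c i - δ = (k : ℤ) + c i := by
      push_cast
      ring
    simp only
    rw [e1]
    exact this
  obtain ⟨hGr', hFg'⟩ := hAFG (s + 1) δ _ (dg (s + 1 + 1) ρ) F L f hGr hFg FL Fst hf fL
  obtain ⟨c', t, dt, γ, g, hB⟩ := hABA (s + 1) _ (low (dg (s + 1 + 1) ρ)) F L hGr' hFg'
  have hcn := hACN s _ (low (dg (s + 1 + 1) ρ)) F L c' t dt γ g hGr' hFg' hB
  refine ⟨c', ⟨t, g, hB.g0, fun j => ?_, fun α hα => ?_, fun x hx => ?_⟩, ?_⟩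
  · exact Set.mem_iUnion.2 ⟨dt j, hB.mem j⟩
  · obtain ⟨y, hy⟩ := hα
    apply hB.ind
    have e1 : ∑ j, low (dg (s + 1 + 1) ρ) (α j) (t j) = ∑ j, up (α j) • t j :=
      Finset.sum_congr rfl fun j _ => low_app _ _
    rw [e1]
    refine mem_F f δ c y _ fhom f0 hy fun i n hn => ?_
    rw [Finset.sum_apply, map_sum]
    refine Finset.sum_eq_zero fun j _ => ?_
    rw [Pi.smul_apply, smul_eq_mul]
    have h1 := hL (dt j) (t j) (hB.mem j) i
    by_cases h2 : 0 ≤ (dt j : ℤ) + c i
    · rw [hp_nonneg h2] at h1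
      exact comp_low h1 _ (by omega)
    · rw [hp_neg h2, Submodule.mem_bot] at h1
      rw [h1, mul_zero, map_zero]
  · obtain ⟨k, hk⟩ := Set.mem_iUnion.1 hx
    obtain ⟨α, -, p, -, hp⟩ := hB.exp k x hk
    refine ⟨α, p, ?_⟩
    have e1 : ∑ j, low (dg (s + 1 + 1) ρ) (α j) (t j) = ∑ j, up (α j) • t j :=
      Finset.sum_congr rfl fun j _ => low_app _ _
    rw [e1, low_app, dg_app] at hp
    rw [hp]
    abel
  · have rkF : ∀ k, (Module.finrank ℂ (F k) : ℝ) = ∑ i, hn (s + 2) ((k : ℤ) + (c i - δ)) := by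
      intro k
      have inj : Function.Injective (dg (s + 1 + 1) ρ f) := by
        intro x y hxy
        funext i
        have := congrFun hxy i
        exact mul_left_cancel₀ f0 this
      have e1 := LinearEquiv.finrank_eq (Submodule.equivMapOfInjective (dg (s + 1 + 1) ρ f) inj
        (YY fun i => (k : ℤ) + c i - δ))
      have e2 : Module.finrank ℂ (F k) = Module.finrank ℂ (YY (s := s + 1 + 1)
        fun i => (k : ℤ) + c i - δ) := e1.symm
      rw [e2, YY_rank]
      refine Finset.sum_congr rfl fun i _ => ?_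
      rw [add_sub_assoc]
    have a1 : Asy (s + 1) (fun k => ∑ i, hn (s + 2) ((k : ℤ) + (c i - δ)))
        (∑ _i : Fin ρ, 1 / ((s + 1).factorial : ℝ))
        (∑ i, ((((c i - δ : ℤ) : ℝ) + (s + 2) / 2) / (s.factorial : ℝ))) :=
      asy_sum fun i => (hAHN s (c i - δ)).2
    have a2 : Asy (s + 1) (fun k => ∑ j, hn (s + 1) ((k : ℤ) - dt j))
        (∑ _j : Fin c', 0) (∑ _j : Fin c', 1 / (s.factorial : ℝ)) := by
      refine asy_sum fun j => ?_
      have := (hAHN s (-(dt j : ℤ))).1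
      simp only [← sub_eq_add_neg] at this
      exact asy_asz this
    have a3 := asy_add (asy_add a1 a2) (asy_asz hcn)
    have e1 : (fun k : ℕ => (∑ i, hn (s + 2) ((k : ℤ) + (c i - δ)) +
        ∑ j, hn (s + 1) ((k : ℤ) - dt j)) + ((Module.finrank ℂ (L k) : ℝ) -
          Module.finrank ℂ (F k) - ∑ j, hn (s + 1) ((k : ℤ) - dt j))) =
        fun k => (Module.finrank ℂ (L k) : ℝ) := by
      funext k
      rw [rkF]
      ring
    rw [e1] at a3
    convert a3 using 1
    · simp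
      ring
    · rw [add_zero, add_div, Finset.sum_div]
      have e2 : s + 1 - 1 = s := rfl
      rw [e2]
      congr 1
      · refine Finset.sum_congr rfl fun i _ => ?_
        push_cast
        ring
      · simp
        ring

end Pool.Agent.Helper81.KPA
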